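import Pool.Agent.Y136.BO.Order

/-!
# MP_3b2c1c_al: a bi-orderable group outside a large extension-closed quasivariety

The definitions of quasivarieties (`IsQuasivariety`), extension-closed classes (`ExtensionClosed`),
locally indicable groups (`LocallyIndicable`) and of Brodskii's quasivariety (`InBrodskii`) are
those of the starting file `NotBrodskii`. The group is Thompson's group `F`.
-/

set_option autoImplicit false

namespace Pool.Agent.Results.MP_3b2c1c_al.BiOrderableExample

open Pool.Agent.H117R3 Pool.Agent.Results.MP_3b2c1c_al.NotBrodskii Pool.Agent.Y136.BO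

universe u

/-- `G` is a torsion group: every element has finite order. -/
def IsTorsionGroup (G : Type u) [Group G] : Prop := ∀ g : G, ∃ n : ℕ, 0 < n ∧ g ^ n = 1

/-- `G` belongs to the smallest extension-closed quasivariety which contains all torsion groups
and all soluble groups. -/
def InLarge (G : Type u) [Group G] : Prop :=
  ∀ Q : (G : Type u) → [Group G] → Prop, IsQuasivariety Q → ExtensionClosed Q →
    (∀ (H : Type u) [Group H], IsTorsionGroup H ∨ Group.IsSolvable H → Q H) → Q G

/-- A quasivariety is closed under embeddings. -/
theorem of_injective {Q : (G : Type u) → [Group G] → Prop} (hQ : IsQuasivariety Q)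
    {G H : Type u} [Group G] [Group H] (f : G →* H) (hf : Function.Injective f) (h : Q H) :
    Q G :=
  hQ.iso _ _ ⟨(MonoidHom.ofInjective hf).symm⟩ (hQ.subgroup H f.range h)

/-- A group which is residually in the large class belongs to it. -/
theorem residually {G : Type u} [Group G]
    (h : ∀ g : G, g ≠ 1 → ∃ (H : Type u) (_ : Group H), InLarge H ∧ ∃ f : G →* H, f g ≠ 1) :
    InLarge G := by
  classical
  intro Q hQ hE hC
  choose H hH hL f hf using h
  let ι : Type u := {g : G // g ≠ 1}
  let K : ι → Type u := fun g => H g.1 g.2
  let inst : ∀ i, Group (K i) := fun g => hH g.1 g.2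
  have hprod : Q (∀ i, K i) := hQ.prod ι K fun i => hL i.1 i.2 Q hQ hE hC
  let F : G →* (∀ i, K i) :=
    { toFun := fun x i => f i.1 i.2 x
      map_one' := by funext i; exact map_one _
      map_mul' := fun x y => by funext i; exact map_mul _ _ _ }
  refine of_injective hQ F ?_ hprod
  rw [injective_iff_map_eq_one]
  intro x hx
  by_contra hne
  exact hf x hne (congrFun hx ⟨x, hne⟩)

/-- (1) Let `W` be the smallest extension-closed quasivariety of groups that contains all torsion
groups and all soluble groups. There is a finitely generated group (Thompson's group `F`) which is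
locally indicable, and even bi-orderable, and does not belong to `W`.

(2) `W` is large: it contains Brodskii's quasivariety, all residually finite groups, all
residually soluble groups, and more generally every group that is residually in `W`; in particular
there is a finitely generated, locally indicable, bi-orderable group which does not belong to
Brodskii's quasivariety. -/
theorem result :
    (∃ (G : Type u) (_ : Group G), Group.FG G ∧ LocallyIndicable G ∧ BiOrderable G ∧
      ¬ InLarge G ∧ ¬ InBrodskii G) ∧
    (∀ (G : Type u) [Group G], InBrodskii G → InLarge G) ∧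
    (∀ (G : Type u) [Group G],
      (∀ g : G, g ≠ 1 → ∃ (H : Type u) (_ : Group H),
        (Finite H ∨ Group.IsSolvable H ∨ InLarge H) ∧ ∃ f : G →* H, f g ≠ 1) → InLarge G) := by
  have hB : ∀ (G : Type u) [Group G], InBrodskii G → InLarge G := by
    intro G _ h Q hQ hE hC
    refine h Q hQ hE (hC _ (Or.inr ?_))
    infer_instance
  have hmain : ∃ (G : Type u) (_ : Group G), Group.FG G ∧ LocallyIndicable G ∧ BiOrderable G ∧
      ¬ InLarge G := by
    let e : ULift.{u} FF ≃* FF := MulEquiv.ulift
    refine ⟨ULift.{u} FF, inferInstance, ?_, ?_, ?_, ?_⟩
    · have := fg_FF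
      exact Group.fg_of_surjective (f := e.symm.toMonoidHom) e.symm.surjective
    · intro H hH hne
      let K : Subgroup FF := H.map e.toMonoidHom
      have hKfg : K.FG := fg_map _ hH
      have hKne : K ≠ ⊥ := by
        intro h
        apply hne
        rw [Subgroup.map_eq_bot_iff_of_injective _ e.injective] at h
        exact h
      obtain ⟨g, hg⟩ := locallyIndicable_FF K hKfg hKne
      let e' : H ≃* K := H.equivMapOfInjective e.toMonoidHom e.injective
      exact ⟨g.comp e'.toMonoidHom, hg.comp e'.surjective⟩
    · refine BiOrderable.of_injective ((Subgroup.inclusion FF_le).comp e.toMonoidHom) ?_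
        biOrderable_LL
      exact (Subgroup.inclusion_injective FF_le).comp e.injective
    · intro h
      have hsep : Sep (ULift.{u} FF) := h (fun G _ => Sep G) isQuasivariety_sep
        extensionClosed_sep fun H _ hH => hH.elim sep_of_torsion sep_of_solvable
      exact not_sep_FF (by
        intro a b hab
        have h1 := hsep (e.symm a) (e.symm b) (hab.map e.symm.toMonoidHom)
        exact congrArg e h1)
  refine ⟨?_, hB, fun G _ h => residually fun g hg => ?_⟩
  · obtain ⟨G, i, h1, h2, h3, h4⟩ := hmain
    exact ⟨G, i, h1, h2, h3, h4, fun h => h4 (hB G h)⟩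
  · obtain ⟨H, i, h1, f, hf⟩ := h g hg
    refine ⟨H, i, ?_, f, hf⟩
    rcases h1 with h1 | h1 | h1
    · intro Q _ _ hC
      refine hC H (Or.inl fun x => ?_)
      exact ⟨orderOf x, orderOf_pos x, pow_orderOf_eq_one x⟩
    · intro Q _ _ hC
      exact hC H (Or.inr h1)
    · exact h1

end Pool.Agent.Results.MP_3b2c1c_al.BiOrderableExample
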